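import Pool.Agent.H53.NR.Targets
import Pool.Agent.H18.SF.OR

/-!
# MP_6ab439_lc: row FB5 (finitely many orbits)
-/

set_option autoImplicit false

namespace Pool.Agent.H33.NR

open Pool.Agent.H68.BP Pool.Agent.H58.SF Pool.Agent.H53.GC Pool.Agent.H53.NR
open Pool.Agent.H18.SF (ty exists_aut_of_ty)

private lemma isAut_of_splitting {τ σ : Sig} {B : Type} {𝔹 : Str τ B} {𝔸 : Str σ B}
    (h : ClosedUnderSplitting 𝔸 𝔹) {g : B ≃ B} (hg : IsAut 𝔹 g) : IsAut 𝔸 g := by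
  intro l x
  constructor
  · intro hx
    refine h l x _ hx ⟨fun a b hab => g.injective hab, fun l' a => ?_⟩
    rw [← hg l' (fun i => x (a i))]
    exact ⟨fun h1 => ⟨h1, fun i j hij => congrArg g hij⟩, fun h1 => h1.1⟩
  · intro hx
    refine h l (fun i => g (x i)) x hx ⟨fun a b hab => congrArg g hab, fun l' a => ?_⟩
    rw [← hg l' (fun i => x (a i))]
    exact ⟨fun h1 => ⟨h1, fun i j hij => g.injective hij⟩, fun h1 => h1.1⟩

theorem pf_FB5 : T_FB5 := by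
  intro τ σ B 𝔹 𝔸 _ hB hR n
  classical
  have hfin : (Set.range (ty 𝔹 (n := n))).Finite := Set.toFinite _
  have hch : ∀ p : (Fin n → Fin n → Prop) × ((l : Fin τ.m) → (Fin (τ.ar l) → Fin n) → Prop),
      ∃ y : Option (Fin n → B), ∀ x : Fin n → B, ty 𝔹 x = p → ∃ z, y = some z ∧ ty 𝔹 z = p := by
    intro p
    by_cases h : ∃ x : Fin n → B, ty 𝔹 x = p
    · obtain ⟨x, hx⟩ := h
      exact ⟨some x, fun _ _ => ⟨x, rfl, hx⟩⟩
    · exact ⟨none, fun x hx => absurd ⟨x, hx⟩ h⟩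
  choose y hy using hch
  refine ⟨(hfin.toFinset.image y).eraseNone, fun x => ?_⟩
  obtain ⟨z, hz, hz'⟩ := hy (ty 𝔹 x) x rfl
  refine ⟨z, ?_, ?_⟩
  · rw [Finset.mem_eraseNone, Finset.mem_image]
    refine ⟨ty 𝔹 x, ?_, hz⟩
    rw [Set.Finite.mem_toFinset]
    exact ⟨x, rfl⟩
  · obtain ⟨g, hg, hg'⟩ := exists_aut_of_ty hB x z hz'.symm
    exact ⟨g, isAut_of_splitting hR hg, hg'⟩

end Pool.Agent.H33.NR
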